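import Mathlib
import Pool.Agent.TN.Main
import Pool.Agent.TN.Sym

/-!
# Partition numbers in norms whose unit ball is a lattice tile
-/

set_option autoImplicit false

open MeasureTheory Set
open scoped Pointwise

namespace Pool.Agent.Variants.MP_c15520_co.TileNorms

/-- Convex bodies. -/
def Body {n : ℕ} (F : Set (EuclideanSpace ℝ (Fin n))) : Prop :=
  IsCompact F ∧ Convex ℝ F ∧ (interior F).Nonempty

/-- The diameter of `F` in the norm with unit ball `G`. -/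
noncomputable def Diam {n : ℕ} (F G : Set (EuclideanSpace ℝ (Fin n))) : ℝ :=
  sSup ((fun p : EuclideanSpace ℝ (Fin n) × EuclideanSpace ℝ (Fin n) =>
    gauge G (p.1 - p.2)) '' (F ×ˢ F))

/-- `F` is a union of `N` sets of smaller diameter, in the norm with unit ball `G`. -/
def Parts {n : ℕ} (F G : Set (EuclideanSpace ℝ (Fin n))) (N : ℕ) : Prop :=
  ∃ A : Fin N → Set (EuclideanSpace ℝ (Fin n)), (⋃ i, A i) = F ∧ ∀ i, ∃ c : ℝ, c < Diam F G ∧
    ∀ x ∈ A i, ∀ y ∈ A i, gauge G (x - y) ≤ c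

/-- Centrally symmetric convex bodies. -/
def SBody {n : ℕ} (K : Set (EuclideanSpace ℝ (Fin n))) : Prop :=
  Body K ∧ ∀ x ∈ K, -x ∈ K

/-- `K + L = ℝ ^ n`. -/
def Covers {n : ℕ} (K : Set (EuclideanSpace ℝ (Fin n)))
    (L : Submodule ℤ (EuclideanSpace ℝ (Fin n))) : Prop :=
  ∀ x : EuclideanSpace ℝ (Fin n), ∃ k ∈ K, ∃ l ∈ L, x = k + l

variable {n : ℕ}

lemma sym {K : Set (EuclideanSpace ℝ (Fin n))} (h : Body K) (hs : ∀ x ∈ K, -x ∈ K) :
    Pool.Agent.Rog.SymBody K := ⟨h.1, h.2.1, h.2.2, hs⟩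

lemma exists_ne (hn : 1 ≤ n) {F : Set (EuclideanSpace ℝ (Fin n))} (hF : Body F) :
    ∃ x ∈ F, ∃ y ∈ F, x ≠ y := by
  by_contra hcon
  push Not at hcon
  obtain ⟨o, ho⟩ := hF.2.2
  have : Nonempty (Fin n) := ⟨⟨0, hn⟩⟩
  have h1 : F ⊆ {o} := fun z hz => hcon z hz o (interior_subset ho)
  have h2 := interior_mono h1 ho
  rw [interior_singleton] at h2
  exact h2

lemma gauge_pos' {G : Set (EuclideanSpace ℝ (Fin n))} (hG : Body G)
    (hGs : ∀ x ∈ G, -x ∈ G) {v : EuclideanSpace ℝ (Fin n)} (hv : v ≠ 0) : 0 < gauge G v := by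
  have h0 : G ∈ nhds (0 : EuclideanSpace ℝ (Fin n)) := by
    have hS := sym hG hGs
    obtain ⟨o, ho⟩ := hG.2.2
    have h1 : IsOpen ((fun x => (2 : ℝ) • x + o) ⁻¹' interior G) :=
      isOpen_interior.preimage (by fun_prop)
    refine Filter.mem_of_superset (h1.mem_nhds (by simpa using ho)) ?_
    intro x hx
    have h2 := Pool.Agent.TN.half_sub_mem hS (interior_subset hx) (interior_subset ho)
    simpa [smul_smul] using h2
  exact gauge_pos (absorbent_nhds_zero h0)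
    (NormedSpace.isVonNBounded_of_isBounded ℝ hG.1.isBounded) |>.2 hv

/-- Bound for the partition number by a lattice covering. -/
lemma general (n N : ℕ) (hn : 1 ≤ n) (F G K : Set (EuclideanSpace ℝ (Fin n)))
    (L : Submodule ℤ (EuclideanSpace ℝ (Fin n))) [DiscreteTopology L] [IsZLattice ℝ L]
    (hF : Body F) (hG : Body G) (hGs : ∀ x ∈ G, -x ∈ G) (hK : Body K) (hKs : ∀ x ∈ K, -x ∈ K)
    (hcov : ∀ x : EuclideanSpace ℝ (Fin n), ∃ k ∈ K, ∃ l ∈ L, x = k + l)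
    (hKG : ∀ k ∈ K, gauge G ((2 : ℝ) • k) ≤ Diam F G)
    (hvol : volume.real (F + K) < (N + 1) * ZLattice.covolume L) : Parts F G N := by
  have hS := sym hK hKs
  obtain ⟨c, hc0, hc1, A, hA, hAd⟩ := Pool.Agent.TN.main L hF.1 hS hcov hvol
  have hd : 0 < Diam F G := by
    obtain ⟨k, hk, hk0⟩ : ∃ k ∈ K, k ≠ 0 := by
      obtain ⟨x, hx, y, hy, hxy⟩ := exists_ne hn hK
      by_cases h0 : x = 0
      · exact ⟨y, hy, fun h => hxy (h0.trans h.symm)⟩
      · exact ⟨x, hx, h0⟩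
    refine lt_of_lt_of_le ?_ (hKG k hk)
    exact gauge_pos' hG hGs (smul_ne_zero (by norm_num) hk0)
  refine ⟨A, hA, fun i => ⟨c * Diam F G, by nlinarith, fun x hx y hy => ?_⟩⟩
  obtain ⟨k, hk, hxy⟩ := hAd i x hx y hy
  rw [hxy, mul_comm 2 c, ← smul_smul, gauge_smul_of_nonneg hc0.le, smul_eq_mul]
  exact mul_le_mul_of_nonneg_left (hKG k hk) hc0.le

lemma gauge_le {G : Set (EuclideanSpace ℝ (Fin n))} (hG : Body G) (hGs : ∀ x ∈ G, -x ∈ G)
    {v : EuclideanSpace ℝ (Fin n)} (h : gauge G v ≤ 1) : v ∈ G := by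
  have hS := sym hG hGs
  have h0 : (0 : EuclideanSpace ℝ (Fin n)) ∈ G := Pool.Agent.PNR.zero_mem hS
  rcases eq_or_ne v 0 with rfl | hv
  · exact h0
  have hp := gauge_pos' hG hGs hv
  have h1 : G ∈ nhds (0 : EuclideanSpace ℝ (Fin n)) := by
    obtain ⟨o, ho⟩ := hG.2.2
    have h1 : IsOpen ((fun x => (2 : ℝ) • x + o) ⁻¹' interior G) :=
      isOpen_interior.preimage (by fun_prop)
    refine Filter.mem_of_superset (h1.mem_nhds (by simpa using ho)) ?_
    intro x hx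
    have h2 := Pool.Agent.TN.half_sub_mem hS (interior_subset hx) (interior_subset ho)
    simpa [smul_smul] using h2
  have h3 : v ∈ closure G := (gauge_le_one_iff_mem_closure hG.2.1 h1).1 h
  rwa [hG.1.isClosed.closure_eq] at h3

lemma diam_smul (F G : Set (EuclideanSpace ℝ (Fin n))) {s : ℝ} (hs : 0 < s) :
    Diam (s • F) G = s * Diam F G := by
  unfold Diam
  rw [← smul_eq_mul, ← Real.sSup_smul_of_nonneg hs.le]
  congr 1
  ext r
  constructor
  · rintro ⟨⟨_, _⟩, ⟨⟨x, hx, rfl⟩, ⟨y, hy, rfl⟩⟩, rfl⟩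
    refine ⟨gauge G (x - y), ⟨(x, y), ⟨hx, hy⟩, rfl⟩, ?_⟩
    change s • gauge G (x - y) = gauge G (s • x - s • y)
    rw [← smul_sub, gauge_smul_of_nonneg hs.le]
  · rintro ⟨_, ⟨⟨x, y⟩, ⟨hx, hy⟩, rfl⟩, rfl⟩
    refine ⟨(s • x, s • y), ⟨Set.smul_mem_smul_set hx, Set.smul_mem_smul_set hy⟩, ?_⟩
    change gauge G (s • x - s • y) = s • gauge G (x - y)
    rw [← smul_sub, gauge_smul_of_nonneg hs.le]

lemma parts_smul {F G : Set (EuclideanSpace ℝ (Fin n))} {s : ℝ} (hs : 0 < s) {N : ℕ}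
    (h : Parts (s • F) G N) : Parts F G N := by
  obtain ⟨A, hA, hd⟩ := h
  refine ⟨fun i => s⁻¹ • A i, ?_, fun i => ?_⟩
  · rw [← Set.smul_set_iUnion, hA, smul_smul, inv_mul_cancel₀ hs.ne', one_smul]
  · obtain ⟨c, hc, hcA⟩ := hd i
    rw [diam_smul F G hs] at hc
    refine ⟨s⁻¹ * c, ?_, ?_⟩
    · rw [inv_mul_lt_iff₀ hs]
      exact hc
    · rintro _ ⟨x, hx, rfl⟩ _ ⟨y, hy, rfl⟩
      change gauge G (s⁻¹ • x - s⁻¹ • y) ≤ _
      rw [← smul_sub, gauge_smul_of_nonneg (inv_nonneg.2 hs.le), smul_eq_mul]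
      exact mul_le_mul_of_nonneg_left (hcA x hx y hy) (inv_nonneg.2 hs.le)

lemma diam_facts (hn : 1 ≤ n) {F G : Set (EuclideanSpace ℝ (Fin n))} (hF : Body F) (hG : Body G)
    (hGs : ∀ x ∈ G, -x ∈ G) :
    0 < Diam F G ∧ ∀ x ∈ F, ∀ y ∈ F, gauge G (x - y) ≤ Diam F G := by
  have hS := sym hG hGs
  have h1 : G ∈ nhds (0 : EuclideanSpace ℝ (Fin n)) := by
    obtain ⟨o, ho⟩ := hG.2.2
    have h1 : IsOpen ((fun x => (2 : ℝ) • x + o) ⁻¹' interior G) :=
      isOpen_interior.preimage (by fun_prop)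
    refine Filter.mem_of_superset (h1.mem_nhds (by simpa using ho)) ?_
    intro x hx
    have h2 := Pool.Agent.TN.half_sub_mem hS (interior_subset hx) (interior_subset ho)
    simpa [smul_smul] using h2
  have hcg : Continuous (gauge G) := continuous_gauge hG.2.1 h1
  have hbdd : BddAbove ((fun p : EuclideanSpace ℝ (Fin n) × EuclideanSpace ℝ (Fin n) =>
      gauge G (p.1 - p.2)) '' (F ×ˢ F)) :=
    ((hF.1.prod hF.1).image (by fun_prop)).bddAbove
  have hle : ∀ x ∈ F, ∀ y ∈ F, gauge G (x - y) ≤ Diam F G := fun x hx y hy =>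
    le_csSup hbdd ⟨(x, y), ⟨hx, hy⟩, rfl⟩
  refine ⟨?_, hle⟩
  obtain ⟨x, hx, y, hy, hxy⟩ := exists_ne hn hF
  exact lt_of_lt_of_le (gauge_pos' hG hGs (sub_ne_zero.2 hxy)) (hle x hx y hy)

lemma not_translate {F K : Set (EuclideanSpace ℝ (Fin n))}
    (h : ∀ v : EuclideanSpace ℝ (Fin n), F ≠ (fun x => x + v) '' K) :
    ∀ v : EuclideanSpace ℝ (Fin n), ∃ x, ¬ (x ∈ F ↔ x - v ∈ K) := by
  intro v
  by_contra hcon
  push Not at hcon
  apply h v
  ext x
  rw [hcon x]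
  constructor
  · exact fun hx => ⟨x - v, hx, by simp⟩
  · rintro ⟨y, hy, rfl⟩
    simpa using hy

/-- The statement for a covering of the space by a lattice of translates of `K`. -/
lemma covering (n : ℕ) (hn : 1 ≤ n) (F G K : Set (EuclideanSpace ℝ (Fin n)))
    (L : Submodule ℤ (EuclideanSpace ℝ (Fin n))) [DiscreteTopology L] [IsZLattice ℝ L]
    (hF : Body F) (hG : SBody G) (hK : SBody K) (hcov : Covers K L)
    (hKG : (2 : ℝ) • K ⊆ Diam F G • G) :
    (∀ N : ℕ, volume.real (F + K) < (N + 1) * ZLattice.covolume L → Parts F G N) ∧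
    (∀ (lam : ℝ) (N : ℕ), 0 ≤ lam → F - F ⊆ (2 * lam) • K →
      (1 + lam) ^ n * volume.real K < (N + 1) * ZLattice.covolume L → Parts F G N) ∧
    (F - F ⊆ (2 : ℝ) • K → volume.real K < (1 + 1 / 2 ^ n) * ZLattice.covolume L →
      Parts F G (2 ^ n)) ∧
    (F - F ⊆ (2 : ℝ) • K → volume.real K = ZLattice.covolume L →
      (∀ v : EuclideanSpace ℝ (Fin n), F ≠ (fun x => x + v) '' K) → Parts F G (2 ^ n - 1)) := by
  have hS := sym hK.1 hK.2
  have hFn : F.Nonempty := hF.2.2.mono interior_subset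
  obtain ⟨hd, -⟩ := diam_facts hn hF hG.1 hG.2
  have hKG' : ∀ k ∈ K, gauge G ((2 : ℝ) • k) ≤ Diam F G := by
    intro k hk
    obtain ⟨g, hg, hgk⟩ := hKG (Set.smul_mem_smul_set hk)
    have e : (2 : ℝ) • k = Diam F G • g := hgk.symm
    rw [e, gauge_smul_of_nonneg hd.le, smul_eq_mul]
    have := gauge_le_one_of_mem hg
    nlinarith
  have hgen : ∀ N : ℕ, volume.real (F + K) < (N + 1) * ZLattice.covolume L → Parts F G N :=
    fun N h => general n N hn F G K L hF hG.1 hG.2 hK.1 hK.2 hcov hKG' h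
  have hlam : ∀ (lam : ℝ) (N : ℕ), 0 ≤ lam → F - F ⊆ (2 * lam) • K →
      (1 + lam) ^ n * volume.real K < (N + 1) * ZLattice.covolume L → Parts F G N := by
    intro lam N h0 hFK hvol
    refine hgen N (lt_of_le_of_lt (Pool.Agent.TN.vol_add_le hn hF.1 hF.2.1 hFn hS h0 ?_) hvol)
    intro x hx y hy
    obtain ⟨k, hk, hkxy⟩ := hFK (Set.sub_mem_sub hx hy)
    exact ⟨k, hk, hkxy.symm⟩
  refine ⟨hgen, hlam, ?_, ?_⟩
  · intro hFK hvol
    refine hlam 1 (2 ^ n) zero_le_one (by rw [mul_one]; exact hFK) ?_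
    have h2 : (0 : ℝ) < 2 ^ n := by positivity
    have h3 := mul_lt_mul_of_pos_left hvol h2
    have h4 : (2 : ℝ) ^ n * ((1 + 1 / 2 ^ n) * ZLattice.covolume L) =
        (2 ^ n + 1) * ZLattice.covolume L := by field_simp
    push_cast
    rw [show (1 : ℝ) + 1 = 2 by norm_num, ← h4]
    exact h3
  · intro hFK htile hne
    apply hgen
    have h1 := Pool.Agent.TN.vol_add_lt' hn hF.1 hF.2.1 hFn hS (by
      intro x hx y hy
      obtain ⟨k, hk, hkxy⟩ := hFK (Set.sub_mem_sub hx hy)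
      exact ⟨k, hk, hkxy.symm⟩) (not_translate hne)
    rw [htile] at h1
    have h2 : ((2 ^ n - 1 : ℕ) : ℝ) + 1 = 2 ^ n := by
      have h3 : (2 ^ n - 1 : ℕ) + 1 = 2 ^ n := Nat.sub_add_cancel Nat.one_le_two_pow
      exact_mod_cast h3
    rw [h2]
    exact h1

/-- **Norms with thin lattice coverings and tile norms.**  Let `F` and `G` be convex bodies in
`ℝ ^ n`, `G` centrally symmetric, and let `d` be the `G`-diameter of `F`.

(a) Let `K` be a centrally symmetric convex body and `L` a lattice with `K + L = ℝ ^ n` and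
`F - F ⊆ 2 K ⊆ d G`.  If `vol K < (1 + 2 ^ (-n)) covol L`, then `a_G(F) ≤ 2 ^ n`.  If `K` is a tile
for `L` and `F` is no translate of `K`, then `a_G(F) ≤ 2 ^ n - 1`.

(b) The case `K = (d / 2) G`: if `G` tiles the space by the translations of a lattice, then
`a_G(F) ≤ 2 ^ n`, and `a_G(F) ≤ 2 ^ n - 1` if `F` is not homothetic to `G`. -/
theorem result (n : ℕ) (hn : 1 ≤ n) (F G : Set (EuclideanSpace ℝ (Fin n)))
    (hF : Body F) (hG : SBody G) :
    (∀ (K : Set (EuclideanSpace ℝ (Fin n))) (L : Submodule ℤ (EuclideanSpace ℝ (Fin n)))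
      [DiscreteTopology L] [IsZLattice ℝ L], SBody K → Covers K L →
      F - F ⊆ (2 : ℝ) • K → (2 : ℝ) • K ⊆ Diam F G • G →
      (volume.real K < (1 + 1 / 2 ^ n) * ZLattice.covolume L → Parts F G (2 ^ n)) ∧
      (volume.real K = ZLattice.covolume L →
        (∀ v : EuclideanSpace ℝ (Fin n), F ≠ (fun x => x + v) '' K) →
        Parts F G (2 ^ n - 1))) ∧
    (∀ (L : Submodule ℤ (EuclideanSpace ℝ (Fin n))) [DiscreteTopology L] [IsZLattice ℝ L],
      Covers G L → volume.real G = ZLattice.covolume L →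
      Parts F G (2 ^ n) ∧
      ((∀ (r : ℝ) (v : EuclideanSpace ℝ (Fin n)), 0 < r → F ≠ (fun x => r • x + v) '' G) →
        Parts F G (2 ^ n - 1))) := by
  refine ⟨fun K L _ _ hK hcov hFK hKG => ?_, ?_⟩
  · obtain ⟨-, -, r1, r2⟩ := covering n hn F G K L hF hG hK hcov hKG
    exact ⟨r1 hFK, r2 hFK⟩
  intro L _ _ hcov hvol
  obtain ⟨hd, hle⟩ := diam_facts hn hF hG.1 hG.2
  set d := Diam F G with hdd
  have hs : 0 < 2 / d := by positivity
  have hD : Diam ((2 / d) • F) G = 2 := by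
    rw [diam_smul F G hs, ← hdd]
    field_simp
  have hF' : Body ((2 / d) • F) := by
    refine ⟨hF.1.smul _, hF.2.1.smul _, ?_⟩
    rw [interior_smul₀ hs.ne']
    exact hF.2.2.smul_set
  have hFK : (2 / d) • F - (2 / d) • F ⊆ (2 : ℝ) • G := by
    rintro _ ⟨_, ⟨x, hx, rfl⟩, _, ⟨y, hy, rfl⟩, rfl⟩
    refine ⟨(1 / d) • (x - y), gauge_le hG.1 hG.2 ?_, ?_⟩
    · rw [gauge_smul_of_nonneg (by positivity), smul_eq_mul, one_div, inv_mul_le_iff₀ hd,
        mul_one]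
      exact hle x hx y hy
    · change (2 : ℝ) • (1 / d) • (x - y) = (2 / d) • x - (2 / d) • y
      rw [← smul_sub, smul_smul]
      congr 1
      ring
  obtain ⟨-, -, r1, r2⟩ := covering n hn ((2 / d) • F) G G L hF' hG hG hcov (by rw [hD])
  have hcv : 0 < ZLattice.covolume L := ZLattice.covolume_pos L
  refine ⟨parts_smul hs (r1 hFK ?_), fun hne => parts_smul hs (r2 hFK hvol ?_)⟩
  · rw [hvol]
    have : 0 < 1 / (2 : ℝ) ^ n * ZLattice.covolume L := by positivity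
    linarith
  · intro v hv
    refine hne (d / 2) ((d / 2) • v) (by positivity) ?_
    ext x
    have h1 : x ∈ F ↔ (2 / d) • x ∈ (2 / d) • F := (Set.smul_mem_smul_set_iff₀ hs.ne' F x).symm
    rw [h1, hv]
    constructor
    · rintro ⟨g, hg, hgx⟩
      refine ⟨g, hg, ?_⟩
      change g + v = (2 / d) • x at hgx
      change (d / 2) • g + (d / 2) • v = x
      rw [← smul_add, hgx, smul_smul]
      have e : d / 2 * (2 / d) = 1 := by field_simp
      rw [e, one_smul]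
    · rintro ⟨g, hg, hgx⟩
      refine ⟨g, hg, ?_⟩
      change (d / 2) • g + (d / 2) • v = x at hgx
      change g + v = (2 / d) • x
      rw [← hgx, ← smul_add, smul_smul]
      have e : 2 / d * (d / 2) = 1 := by field_simp
      rw [e, one_smul]

end Pool.Agent.Variants.MP_c15520_co.TileNorms
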